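import Pool.Agent.H927.MG.P1

/-!
# The scheme glued from two affine lines is Mathlib's projective line (by helper52)
-/

set_option autoImplicit false

open AlgebraicGeometry CategoryTheory Limits Polynomial
open scoped LaurentPolynomial
open LaurentPolynomial (T invert T_add T_zero involutive_invert invert_T invert_C)

namespace Pool.Agent.H52.MG927

open Pool.Agent.W523 Pool.Agent.H927.MG

/-! ### evaluation of homogeneous fractions -/

section ev

open HomogeneousLocalization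

variable {A B : Type} [CommRing A] [CommRing B] {σ : Type} [SetLike σ A] [AddSubgroupClass σ A]
  (𝒜 : ℕ → σ) [GradedRing 𝒜]

/-- the evaluation of homogeneous fractions -/
noncomputable def EV (g : A →+* B) (f : A) (v : B) (hv : g f * v = 1) : Away 𝒜 f →+* B :=
  (Localization.awayLift g f (isUnit_iff_exists_inv.mpr ⟨v, hv⟩)).comp
    (algebraMap (Away 𝒜 f) (Localization.Away f))

theorem EV_mk (g : A →+* B) (f : A) (v : B) (hv : g f * v = 1) {d : ℕ} (hf : f ∈ 𝒜 d) (n : ℕ)
    (x : A) (hx : x ∈ 𝒜 (n • d)) : EV 𝒜 g f v hv (Away.mk 𝒜 hf n x hx) = g x * v ^ n := by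
  unfold EV
  rw [RingHom.comp_apply, HomogeneousLocalization.algebraMap_apply, Away.val_mk]
  exact Localization.awayLift_mk g f x v hv n

theorem away_ext {f : A} {d : ℕ} (hf : f ∈ 𝒜 d) {φ ψ : Away 𝒜 f →+* B}
    (h : ∀ n x hx, φ (Away.mk 𝒜 hf n x hx) = ψ (Away.mk 𝒜 hf n x hx)) : φ = ψ := by
  ext z
  obtain ⟨n, a, ha, rfl⟩ := Away.mk_surjective 𝒜 hf z
  exact h n a ha

theorem EV_zero (g : A →+* B) (f : A) (v : B) (hv : g f * v = 1) (a : 𝒜 0) :
    EV 𝒜 g f v hv (fromZeroRingHom 𝒜 _ a) = g a := by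
  unfold EV
  rw [RingHom.comp_apply, HomogeneousLocalization.algebraMap_apply]
  have h : (fromZeroRingHom 𝒜 (Submonoid.powers f) a).val =
      Localization.mk (a : A) (⟨f ^ 0, ⟨0, rfl⟩⟩ : Submonoid.powers f) := by
    show (HomogeneousLocalization.mk _).val = _
    rw [HomogeneousLocalization.val_mk]
    congr 1
    apply Subtype.ext
    simp
  rw [h]
  exact (Localization.awayLift_mk g f a v hv 0).trans (by rw [pow_zero, mul_one])

end ev

/-! ### polynomials in two variables -/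

section poly

open MvPolynomial (homogeneousSubmodule)

attribute [local instance] MvPolynomial.gradedAlgebra

/-- the grading -/
noncomputable abbrev GA : ℕ → Submodule ℂ (MvPolynomial (Fin 2) ℂ) := homogeneousSubmodule (Fin 2) ℂ

theorem x_mem (i : Fin 2) : (MvPolynomial.X i : MvPolynomial (Fin 2) ℂ) ∈ GA 1 :=
  (MvPolynomial.mem_homogeneousSubmodule _ _).2 (MvPolynomial.isHomogeneous_X _ _)

/-- `X_i ↦ 1`, `X_(1-i) ↦ X` -/
noncomputable def gg (i : Fin 2) : MvPolynomial (Fin 2) ℂ →+* ℂ[X] :=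
  MvPolynomial.eval₂Hom C (fun k => if k = i then 1 else X)

theorem gg_X (i k : Fin 2) : gg i (MvPolynomial.X k) = if k = i then 1 else X := by
  simp [gg]

theorem gg_C (i : Fin 2) (c : ℂ) : gg i (MvPolynomial.C c) = C c := by
  simp [gg]

theorem supp_sum {n : ℕ} {a : MvPolynomial (Fin 2) ℂ} (ha : a ∈ GA n) {d : Fin 2 →₀ ℕ}
    (hd : d ∈ a.support) : d 0 + d 1 = n := by
  have h1 : a.IsHomogeneous n := (MvPolynomial.mem_homogeneousSubmodule _ _).1 ha
  have h2 := h1 (MvPolynomial.mem_support_iff.1 hd)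
  rw [Finsupp.weight_apply, Finsupp.sum_fintype _ _ (by simp), Fin.sum_univ_two] at h2
  simpa using h2

theorem gg_formula (i : Fin 2) (a : MvPolynomial (Fin 2) ℂ) :
    gg i a = ∑ d ∈ a.support, C (a.coeff d) * X ^ (d (1 - i)) := by
  unfold gg
  rw [MvPolynomial.coe_eval₂Hom, MvPolynomial.eval₂_eq']
  refine Finset.sum_congr rfl fun d _ => ?_
  congr 1
  rw [Fin.prod_univ_two]
  fin_cases i <;> simp

theorem gg_inj (i : Fin 2) {n : ℕ} {a : MvPolynomial (Fin 2) ℂ} (ha : a ∈ GA n)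
    (h : gg i a = 0) : a = 0 := by
  rw [← MvPolynomial.support_eq_empty]
  by_contra hne
  obtain ⟨d, hd⟩ := Finset.nonempty_iff_ne_empty.2 hne
  rw [gg_formula] at h
  have h1 := congrArg (fun p : ℂ[X] => p.coeff (d (1 - i))) h
  simp only [Polynomial.finsetSum_coeff, Polynomial.coeff_C_mul, Polynomial.coeff_X_pow,
    Polynomial.coeff_zero] at h1
  rw [Finset.sum_eq_single d] at h1
  · rw [if_pos rfl, mul_one] at h1
    exact (MvPolynomial.mem_support_iff.1 hd) h1
  · intro e he hed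
    rw [if_neg, mul_zero]
    intro heq
    apply hed
    have h2 := supp_sum ha hd
    have h3 := supp_sum ha he
    ext k
    fin_cases i <;> fin_cases k <;> simp at heq ⊢ <;> omega
  · intro hd'
    exact absurd hd hd'

/-- the coordinate ring of the chart -/
noncomputable def ev (i : Fin 2) : HomogeneousLocalization.Away GA (MvPolynomial.X i) →+* ℂ[X] :=
  EV GA (gg i) (MvPolynomial.X i) 1 (by rw [gg_X, if_pos rfl, one_mul])

theorem ev_mk (i : Fin 2) (n : ℕ) (x : MvPolynomial (Fin 2) ℂ) (hx : x ∈ GA (n • 1)) :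
    ev i (HomogeneousLocalization.Away.mk GA (x_mem i) n x hx) = gg i x := by
  unfold ev
  rw [EV_mk, one_pow, mul_one]

theorem ev_zero (i : Fin 2) (a : GA 0) :
    ev i (HomogeneousLocalization.fromZeroRingHom GA _ a) = gg i a := by
  unfold ev
  rw [EV_zero]

theorem ev_const (i : Fin 2) (c : ℂ) :
    ev i (HomogeneousLocalization.fromZeroRingHom GA _ (algebraMap ℂ (GA 0) c)) = C c := by
  rw [ev_zero]
  exact gg_C i c

theorem ev_bijective (i : Fin 2) : Function.Bijective (ev i) := by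
  constructor
  · rw [injective_iff_map_eq_zero]
    intro z hz
    obtain ⟨n, a, ha, rfl⟩ := HomogeneousLocalization.Away.mk_surjective GA (x_mem i) z
    rw [ev_mk] at hz
    have ha' := gg_inj i ha hz
    subst ha'
    apply HomogeneousLocalization.val_injective
    rw [HomogeneousLocalization.Away.val_mk, HomogeneousLocalization.val_zero,
      Localization.mk_zero]
  · let s : ℂ[X] →+* HomogeneousLocalization.Away GA (MvPolynomial.X i) :=
      Polynomial.eval₂RingHom
        ((HomogeneousLocalization.fromZeroRingHom GA _).comp (algebraMap ℂ (GA 0)))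
        (HomogeneousLocalization.Away.mk GA (x_mem i) 1 (MvPolynomial.X (1 - i))
          (x_mem (1 - i)))
    have hs : (ev i).comp s = RingHom.id _ := by
      apply Polynomial.ringHom_ext
      · intro c
        rw [RingHom.comp_apply, RingHom.id_apply]
        show ev i (Polynomial.eval₂ _ _ (C c)) = C c
        rw [Polynomial.eval₂_C, RingHom.comp_apply, ev_const]
      · rw [RingHom.comp_apply, RingHom.id_apply]
        show ev i (Polynomial.eval₂ _ _ X) = X
        rw [Polynomial.eval₂_X, ev_mk, gg_X, if_neg]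
        fin_cases i <;> decide
    intro p
    exact ⟨s p, congrArg (fun φ : ℂ[X] →+* ℂ[X] => φ p) hs⟩

/-- the homogeneous coordinates on the intersection of the charts: `X_0 ↦ 1`, `X_1 ↦ T` -/
noncomputable def gT : MvPolynomial (Fin 2) ℂ →+* ℂ[T;T⁻¹] := (toLaurent : ℂ[X] →+* ℂ[T;T⁻¹]).comp (gg 0)

theorem gT_mul : gT (MvPolynomial.X 0 * MvPolynomial.X 1) * T (-1) = 1 := by
  unfold gT
  rw [RingHom.comp_apply, map_mul, gg_X, gg_X, if_pos rfl, if_neg (by decide), one_mul,
    toLaurent_X, ← T_add]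
  norm_num

/-- the map to the intersection of the charts -/
noncomputable def psi : HomogeneousLocalization.Away GA
    (MvPolynomial.X 0 * MvPolynomial.X 1 : MvPolynomial (Fin 2) ℂ) →+* ℂ[T;T⁻¹] :=
  EV GA gT _ (T (-1)) gT_mul

theorem comp0 : (toLaurent : ℂ[X] →+* ℂ[T;T⁻¹]).comp (ev 0) =
    psi.comp (HomogeneousLocalization.awayMap GA (x_mem 1) rfl) := by
  apply away_ext GA (x_mem 0)
  intro n x hx
  rw [RingHom.comp_apply, RingHom.comp_apply, ev_mk, HomogeneousLocalization.awayMap_mk]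
  unfold psi
  rw [EV_mk, map_mul, map_pow]
  unfold gT
  rw [RingHom.comp_apply, RingHom.comp_apply, gg_X, if_neg (by decide), toLaurent_X, mul_assoc,
    ← mul_pow, ← T_add]
  norm_num

theorem hom_id {n : ℕ} {x : MvPolynomial (Fin 2) ℂ} (hx : x ∈ GA n) :
    invert (toLaurent (gg 1 x)) = toLaurent (gg 0 x) * T (-(n : ℤ)) := by
  rw [gg_formula, gg_formula, map_sum, map_sum, map_sum, Finset.sum_mul]
  refine Finset.sum_congr rfl fun d hd => ?_
  have h1 := supp_sum hx hd
  rw [map_mul, map_mul, map_mul, map_pow, map_pow, map_pow, toLaurent_C, toLaurent_X, invert_C,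
    invert_T, LaurentPolynomial.T_pow, LaurentPolynomial.T_pow, mul_assoc, ← T_add]
  congr 2
  have e0 : ((1 : Fin 2) - 1) = 0 := rfl
  have e1 : ((1 : Fin 2) - 0) = 1 := rfl
  rw [e0, e1]
  push_cast [← h1]
  ring

theorem comp1 : ((inv ℂ).comp (toLaurent : ℂ[X] →+* ℂ[T;T⁻¹])).comp (ev 1) =
    psi.comp (HomogeneousLocalization.awayMap GA (x_mem 0) (mul_comm _ _)) := by
  apply away_ext GA (x_mem 1)
  intro n x hx
  rw [RingHom.comp_apply, RingHom.comp_apply, RingHom.comp_apply, ev_mk,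
    HomogeneousLocalization.awayMap_mk]
  unfold psi
  rw [EV_mk, inv_apply, map_mul, map_pow]
  unfold gT
  rw [RingHom.comp_apply, RingHom.comp_apply, gg_X, if_pos rfl, map_one, one_pow, mul_one,
    LaurentPolynomial.T_pow, hom_id hx]
  congr 2

/-! ### the charts of the projective line -/

instance isIso_ev (i : Fin 2) : IsIso (Spec.map (CommRingCat.ofHom (ev i))) := by
  have h : IsIso (CommRingCat.ofHom (ev i)) :=
    (RingEquiv.ofBijective (ev i) (ev_bijective i)).toCommRingCatIso.isIso_hom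
  infer_instance

/-- the charts -/
noncomputable def jj (i : Fin 2) : Spec (.of ℂ[X]) ⟶ Pj :=
  Spec.map (CommRingCat.ofHom (ev i)) ≫ Proj.awayι GA (MvPolynomial.X i) (x_mem i) one_pos

instance jj_open (i : Fin 2) : IsOpenImmersion (jj i) := by
  unfold jj
  infer_instance

theorem jj_range (i : Fin 2) (p : Pj) : (∃ u, jj i u = p) ↔ p ∈ Proj.basicOpen GA (MvPolynomial.X i) := by
  have h : (jj i).opensRange = Proj.basicOpen GA (MvPolynomial.X i) := by
    rw [← Proj.opensRange_awayι GA (MvPolynomial.X i) (x_mem i) one_pos]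
    exact Scheme.Hom.opensRange_comp_of_isIso _ _
  rw [← h]
  rfl

theorem compat : Spec.map (CommRingCat.ofHom (toLaurent : ℂ[X] →+* ℂ[T;T⁻¹])) ≫ jj 0 =
    Spec.map (CommRingCat.ofHom ((inv ℂ).comp (toLaurent : ℂ[X] →+* ℂ[T;T⁻¹]))) ≫ jj 1 := by
  unfold jj
  rw [← Category.assoc, ← Category.assoc, ← Spec.map_comp, ← Spec.map_comp,
    ← CommRingCat.ofHom_comp, ← CommRingCat.ofHom_comp, comp0, comp1, CommRingCat.ofHom_comp,
    CommRingCat.ofHom_comp, Spec.map_comp, Spec.map_comp, Category.assoc, Category.assoc,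
    Proj.SpecMap_awayMap_awayι, Proj.SpecMap_awayMap_awayι]

/-- the map from the glued scheme -/
noncomputable def kk : P1 ⟶ Pj := pushout.desc (jj 0) (jj 1) compat

theorem inl_kk : pushout.inl _ _ ≫ kk = jj 0 := pushout.inl_desc _ _ _
theorem inr_kk : pushout.inr _ _ ≫ kk = jj 1 := pushout.inr_desc _ _ _

theorem adjoin_top : Algebra.adjoin (GA 0)
    (Set.range (fun i : Fin 2 => (MvPolynomial.X i : MvPolynomial (Fin 2) ℂ))) = ⊤ := by
  rw [eq_top_iff]
  intro x _
  induction x using MvPolynomial.induction_on with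
  | C c =>
    exact Subalgebra.algebraMap_mem _ (algebraMap ℂ (GA 0) c)
  | add p q hp hq => exact Subalgebra.add_mem _ (hp trivial) (hq trivial)
  | mul_X p i hp =>
    exact Subalgebra.mul_mem _ (hp trivial) (Algebra.subset_adjoin ⟨i, rfl⟩)

theorem cov (p : Pj) : p ∈ Proj.basicOpen GA (MvPolynomial.X 0) ∨
    p ∈ Proj.basicOpen GA (MvPolynomial.X 1) := by
  have h := Proj.iSup_basicOpen_eq_top' GA (fun i : Fin 2 => (MvPolynomial.X i : MvPolynomial (Fin 2) ℂ))
    (fun i => ⟨1, x_mem i⟩) adjoin_top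
  have h1 : p ∈ (⨆ i, Proj.basicOpen GA (MvPolynomial.X i : MvPolynomial (Fin 2) ℂ)) := by
    rw [h]; trivial
  obtain ⟨i, hi⟩ := TopologicalSpace.Opens.mem_iSup.1 h1
  fin_cases i
  · exact Or.inl hi
  · exact Or.inr hi

theorem exists_w (u : Spec (.of ℂ[X])) (hu : jj 0 u ∈ Proj.basicOpen GA (MvPolynomial.X 1)) :
    ∃ w, Spec.map (CommRingCat.ofHom (toLaurent : ℂ[X] →+* ℂ[T;T⁻¹])) w = u := by
  have h1 : Spec.map (CommRingCat.ofHom (ev 0)) u ∈
      Proj.awayι GA (MvPolynomial.X 0) (x_mem 0) one_pos ⁻¹ᵁ Proj.basicOpen GA (MvPolynomial.X 1) := hu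
  rw [Proj.awayι_preimage_basicOpen GA (x_mem 0) one_pos (x_mem 1) one_pos] at h1
  have h2 : ev 0 (HomogeneousLocalization.Away.isLocalizationElem (x_mem 0) (x_mem 1)) ∉ u.asIdeal := h1
  have h3 : ev 0 (HomogeneousLocalization.Away.isLocalizationElem (x_mem 0) (x_mem 1)) = X := by
    unfold HomogeneousLocalization.Away.isLocalizationElem
    rw [ev_mk, pow_one, gg_X, if_neg (by decide)]
  rw [h3] at h2
  have h4 : u ∈ (PrimeSpectrum.basicOpen (X : ℂ[X]) : Set (PrimeSpectrum ℂ[X])) := h2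
  rw [← PrimeSpectrum.localization_away_comap_range ℂ[T;T⁻¹] (X : ℂ[X])] at h4
  obtain ⟨w, hw⟩ := h4
  refine ⟨w, ?_⟩
  rw [← hw]
  have h : (toLaurent : ℂ[X] →+* ℂ[T;T⁻¹]) = algebraMap ℂ[X] ℂ[T;T⁻¹] :=
    RingHom.ext fun p => (LaurentPolynomial.algebraMap_eq_toLaurent p).symm
  rw [h]
  rfl

/-- the cover of `P1` -/
noncomputable def cov1 : Scheme.OpenCover.{0} P1 :=
  .mkOfCovers Bool (fun _ => Spec (.of ℂ[X]))
    (fun b => match b with
      | true => pushout.inl _ _
      | false => pushout.inr _ _)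
    (fun p => by
      rcases pushout_cases _ _ p with ⟨q, hq⟩ | ⟨q, hq⟩
      · exact ⟨true, q, hq⟩
      · exact ⟨false, q, hq⟩)
    (fun b => match b with
      | true => inl_open _ _
      | false => inr_open _ _)

theorem kk_inl (u : Spec (.of ℂ[X])) : kk (pushout.inl (Spec.map (CommRingCat.ofHom
    (toLaurent : ℂ[X] →+* ℂ[T;T⁻¹]))) (Spec.map (CommRingCat.ofHom ((inv ℂ).comp
    (toLaurent : ℂ[X] →+* ℂ[T;T⁻¹])))) u) = jj 0 u := by
  have h := congr($inl_kk u)
  exact h

theorem kk_inr (u : Spec (.of ℂ[X])) : kk (pushout.inr (Spec.map (CommRingCat.ofHom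
    (toLaurent : ℂ[X] →+* ℂ[T;T⁻¹]))) (Spec.map (CommRingCat.ofHom ((inv ℂ).comp
    (toLaurent : ℂ[X] →+* ℂ[T;T⁻¹])))) u) = jj 1 u := by
  have h := congr($inr_kk u)
  exact h

theorem mixed (u v : Spec (.of ℂ[X])) (h : jj 0 u = jj 1 v) :
    pushout.inl (Spec.map (CommRingCat.ofHom
    (toLaurent : ℂ[X] →+* ℂ[T;T⁻¹]))) (Spec.map (CommRingCat.ofHom ((inv ℂ).comp
    (toLaurent : ℂ[X] →+* ℂ[T;T⁻¹])))) u = pushout.inr (Spec.map (CommRingCat.ofHom
    (toLaurent : ℂ[X] →+* ℂ[T;T⁻¹]))) (Spec.map (CommRingCat.ofHom ((inv ℂ).comp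
    (toLaurent : ℂ[X] →+* ℂ[T;T⁻¹])))) v := by
  obtain ⟨w, hw⟩ := exists_w u ((jj_range 1 _).1 ⟨v, h.symm⟩)
  have h1 : jj 1 (Spec.map (CommRingCat.ofHom ((inv ℂ).comp (toLaurent : ℂ[X] →+* ℂ[T;T⁻¹]))) w) =
      jj 1 v := by
    rw [← h, ← hw]
    exact congr($compat.symm w)
  have h2 := (jj 1).isOpenEmbedding.injective h1
  rw [← hw, ← h2]
  exact congr($(pushout.condition (f := Spec.map (CommRingCat.ofHom
    (toLaurent : ℂ[X] →+* ℂ[T;T⁻¹]))) (g := Spec.map (CommRingCat.ofHom ((inv ℂ).comp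
    (toLaurent : ℂ[X] →+* ℂ[T;T⁻¹]))))) w)

theorem kk_injective : Function.Injective kk := by
  intro p p' h
  rcases pushout_cases _ _ p with ⟨q, rfl⟩ | ⟨q, rfl⟩ <;>
    rcases pushout_cases _ _ p' with ⟨q', rfl⟩ | ⟨q', rfl⟩
  · rw [kk_inl, kk_inl] at h
    rw [(jj 0).isOpenEmbedding.injective h]
  · rw [kk_inl, kk_inr] at h
    exact mixed _ _ h
  · rw [kk_inl, kk_inr] at h
    exact (mixed _ _ h.symm).symm
  · rw [kk_inr, kk_inr] at h
    rw [(jj 1).isOpenEmbedding.injective h]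

theorem kk_surjective : Function.Surjective kk := by
  intro p
  rcases cov p with h | h
  · obtain ⟨u, hu⟩ := (jj_range 0 p).2 h
    exact ⟨_, (kk_inl u).trans hu⟩
  · obtain ⟨u, hu⟩ := (jj_range 1 p).2 h
    exact ⟨_, (kk_inr u).trans hu⟩

theorem kk_open : IsOpenImmersion kk := by
  refine isOpenImmersion_of_cover kk kk_injective cov1 ?_
  rintro (_ | _)
  · show IsOpenImmersion (pushout.inr _ _ ≫ kk)
    rw [inr_kk]
    infer_instance
  · show IsOpenImmersion (pushout.inl _ _ ≫ kk)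
    rw [inl_kk]
    infer_instance

theorem jj_map (i : Fin 2) : jj i ≫ Pjmap = Spec.map (CommRingCat.ofHom C) := by
  unfold jj Pjmap
  rw [Category.assoc, Proj.awayι_toSpecZero_assoc, ← Spec.map_comp, ← Spec.map_comp,
    ← CommRingCat.ofHom_comp, ← CommRingCat.ofHom_comp]
  congr 2
  exact RingHom.ext fun c => ev_const i c

end poly

theorem proj : S_proj := by
  have h0 := kk_open
  have h3 : Epi kk.base := by
    rw [TopCat.epi_iff_surjective]; exact kk_surjective
  have h4 : IsIso kk := IsOpenImmersion.isIso kk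
  refine ⟨@asIso _ _ _ _ kk h4, ?_⟩
  show kk ≫ Pjmap = P1map
  apply pushout.hom_ext
  · exact (Category.assoc (pushout.inl _ _) kk Pjmap).symm.trans
      ((congrArg (· ≫ Pjmap) inl_kk).trans ((jj_map 0).trans (pushout.inl_desc _ _ _).symm))
  · exact (Category.assoc (pushout.inr _ _) kk Pjmap).symm.trans
      ((congrArg (· ≫ Pjmap) inr_kk).trans ((jj_map 1).trans (pushout.inr_desc _ _ _).symm))

end Pool.Agent.H52.MG927
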